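import Pool.Agent.Lib.MP_5f22fc_co.Graph

set_option autoImplicit false

namespace Pool.Agent.Results.MP_5f22fc_co.FourSevenths

open Pool.Agent.Vis5f

/-- Every visibility graph with minimum degree `δ` has vertex-connectivity at least `(4δ+3)/7`. -/
theorem result :
    ∀ (P : Finset (ℝ × ℝ)), 2 ≤ P.card →
      ∀ G : SimpleGraph (ℝ × ℝ),
        (∀ p q : ℝ × ℝ, G.Adj p q ↔
          (p ∈ P ∧ q ∈ P ∧ p ≠ q ∧ ∀ r ∈ P, r ∉ openSegment ℝ p q)) →
        ∀ d : ℕ, (∀ p ∈ P, d ≤ (G.neighborSet p).ncard) →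
          (4 * d + 3 ≤ 7 * (P.card - 1) ∧
            ∀ S : Finset (ℝ × ℝ), S ⊆ P → 7 * S.card < 4 * d + 3 →
              (G.induce ((P : Set (ℝ × ℝ)) \ (S : Set (ℝ × ℝ)))).Connected) := by
  intro P hP G hG d hd
  obtain ⟨p, hp⟩ : P.Nonempty := Finset.card_pos.1 (by omega)
  have h1 := deg_le hG hp
  have h2 := hd p hp
  refine ⟨by omega, fun S hS hlt => ?_⟩
  obtain ⟨x, hx, hxS⟩ := Finset.exists_mem_notMem_of_card_lt_card (s := S) (t := P) (by omega)
  have : Nonempty ((P : Set (ℝ × ℝ)) \ (S : Set (ℝ × ℝ)) : Set (ℝ × ℝ)) := ⟨⟨x, hx, hxS⟩⟩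
  refine ⟨?_⟩
  by_contra hc
  obtain ⟨A, B, h, hA, hB⟩ := exists_cut hS hc
  rcases le_total A.card B.card with e | e
  · have := core_gen hG h hd hA e
    omega
  · have := core_gen hG h.symm hd hB e
    omega

end Pool.Agent.Results.MP_5f22fc_co.FourSevenths
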