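import Pool.Agent.Lib.MP_5f22fc_co.Sep

set_option autoImplicit false

namespace Pool.Agent.Results.MP_5f22fc_co.TwoHeavySides

open Pool.Agent.Vis5f

/-- The conjectured bound holds for every cut `S` with sides `A`, `B` such that, for some
`B' ⊆ B` with `|B'| = |A|`, at most two sides of the hull of `A ∪ B'` hold two points of `A` and
two points of `B'`. -/
theorem result :
    ∀ (P : Finset (ℝ × ℝ)) (G : SimpleGraph (ℝ × ℝ)),
      (∀ p q : ℝ × ℝ, G.Adj p q ↔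
        (p ∈ P ∧ q ∈ P ∧ p ≠ q ∧ ∀ r ∈ P, r ∉ openSegment ℝ p q)) →
      ∀ d : ℕ, (∀ p ∈ P, d ≤ (G.neighborSet p).ncard) →
        ∀ A B S B' : Finset (ℝ × ℝ), A ∪ B ∪ S = P → Disjoint A B → A.Nonempty →
          (∀ a ∈ A, ∀ b ∈ B, ¬ G.Adj a b) → B' ⊆ B → B'.card = A.card →
          {φ : ℝ × ℝ | ‖φ‖ = 1 ∧
            2 ≤ {a : ℝ × ℝ | a ∈ A ∧
              ∀ q ∈ A ∪ B', φ.1 * q.1 + φ.2 * q.2 ≤ φ.1 * a.1 + φ.2 * a.2}.ncard ∧
            2 ≤ {b : ℝ × ℝ | b ∈ B' ∧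
              ∀ q ∈ A ∪ B', φ.1 * q.1 + φ.2 * q.2 ≤ φ.1 * b.1 + φ.2 * b.2}.ncard}.encard ≤ 2 →
          2 * d + 1 ≤ 3 * S.card := by
  intro P G hG d hd A B S B' h1 h2 hA h3 hB hc h4
  refine core_two hG ⟨h1, h2, h3⟩ hd hA hB hc (le_trans (Set.encard_le_encard ?_) h4)
  rintro φ ⟨n1, hl⟩
  unfold lam cnt at hl
  refine ⟨n1, ?_, ?_⟩
  · refine le_trans (by omega : 2 ≤ ((face φ (A ∪ B')).filter (fun p => colA A p = true)).card) ?_
    rw [← Set.ncard_coe_finset]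
    refine Set.ncard_le_ncard ?_ (A.finite_toSet.subset (fun x hx => hx.1))
    intro x hx
    obtain ⟨x1, x2⟩ := Finset.mem_filter.1 (Finset.mem_coe.1 hx)
    exact ⟨colA_true.1 x2, (mem_face.1 x1).2⟩
  · refine le_trans (by omega : 2 ≤ ((face φ (A ∪ B')).filter (fun p => colA A p = false)).card) ?_
    rw [← Set.ncard_coe_finset]
    refine Set.ncard_le_ncard ?_ (B'.finite_toSet.subset (fun x hx => hx.1))
    intro x hx
    obtain ⟨x1, x2⟩ := Finset.mem_filter.1 (Finset.mem_coe.1 hx)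
    exact ⟨(Finset.mem_union.1 (mem_face.1 x1).1).resolve_left (colA_false.1 x2),
      (mem_face.1 x1).2⟩

end Pool.Agent.Results.MP_5f22fc_co.TwoHeavySides
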