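import Pool.Agent.Lib.MP_5f22fc_co.Rest

set_option autoImplicit false

namespace Pool.Agent.Results.MP_5f22fc_co.TwoThirds

open Pool.Agent.Vis5f

/-- For every `ε > 0`, every visibility graph with large enough minimum degree `δ` has
vertex-connectivity larger than `(2/3 - ε) δ`. -/
theorem result :
    ∀ ε : ℝ, 0 < ε → ∃ d0 : ℕ, ∀ (P : Finset (ℝ × ℝ)), 2 ≤ P.card →
      ∀ G : SimpleGraph (ℝ × ℝ),
        (∀ p q : ℝ × ℝ, G.Adj p q ↔
          (p ∈ P ∧ q ∈ P ∧ p ≠ q ∧ ∀ r ∈ P, r ∉ openSegment ℝ p q)) →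
        ∀ d : ℕ, d0 ≤ d → (∀ p ∈ P, d ≤ (G.neighborSet p).ncard) →
          ∀ S : Finset (ℝ × ℝ), S ⊆ P → (S.card : ℝ) ≤ (2 / 3 - ε) * d →
            (S.card + 2 ≤ P.card ∧
              (G.induce ((P : Set (ℝ × ℝ)) \ (S : Set (ℝ × ℝ)))).Connected) := by
  intro ε hε
  obtain ⟨E, hE⟩ : ∃ E, E = Real.exp (4 / (9 * ε)) := ⟨_, rfl⟩
  have E0 : 0 < E := hE ▸ Real.exp_pos _
  obtain ⟨K, hK⟩ := exists_nat_gt (4 * E / ε)
  obtain ⟨m0, H⟩ := core_asym K
  obtain ⟨d1, hd1⟩ := exists_nat_gt ((4 * m0 + 20) * E / ε)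
  refine ⟨d1 + 1, ?_⟩
  intro P hP G hG d hd0 hd S hS hk
  obtain ⟨p, hp⟩ : P.Nonempty := Finset.card_pos.1 (by omega)
  have h1 := deg_le hG hp
  have h2 := hd p hp
  have d0 : (0 : ℝ) < d := by
    have : 0 < d := by omega
    exact_mod_cast this
  have εd : 0 < ε * d := mul_pos hε d0
  have k1 : 3 * S.card < 2 * d := by
    have : (3 * S.card : ℝ) < 2 * d := by nlinarith
    exact_mod_cast this
  refine ⟨by omega, ?_⟩
  obtain ⟨x, hx, hxS⟩ := Finset.exists_mem_notMem_of_card_lt_card (s := S) (t := P) (by omega)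
  have : Nonempty ((P : Set (ℝ × ℝ)) \ (S : Set (ℝ × ℝ)) : Set (ℝ × ℝ)) := ⟨⟨x, hx, hxS⟩⟩
  refine ⟨?_⟩
  by_contra hc
  obtain ⟨A, B, h, hA, hB⟩ := exists_cut hS hc
  obtain ⟨D, hD⟩ : ∃ D : ℝ, D = 2 * d + 1 - 3 * S.card := ⟨_, rfl⟩
  have D1 : 3 * ε * d < D := by rw [hD]; nlinarith
  have D0 : 0 < D := by nlinarith
  have key : ∃ L : ℕ, (L ≤ m0 ∨ K * L ≤ S.card + K) ∧
      D * Real.log (D / (2 * (2 * L + 8 : ℕ))) ≤ 2 * S.card := by
    rcases le_total A.card B.card with e | e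
    · exact H hG h hd hA e hD D0
    · exact H hG h.symm hd hB e hD D0
  obtain ⟨L, hL, key⟩ := key
  have dd : (4 * m0 + 20) * E < ε * d := by
    have a1 : (d1 : ℝ) ≤ d := by
      have : d1 ≤ d := by omega
      exact_mod_cast this
    have a2 := (div_lt_iff₀ hε).1 (hd1.trans_le a1)
    linarith
  have m00 : (0 : ℝ) ≤ m0 := Nat.cast_nonneg _
  have hle : E * (2 * (2 * L + 8 : ℕ)) ≤ 3 * ε * d := by
    push_cast
    rcases hL with e | e
    · have : (L : ℝ) ≤ m0 := by exact_mod_cast e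
      nlinarith
    · have a1 : (K : ℝ) * L ≤ S.card + K := by exact_mod_cast e
      have a2 := (div_lt_iff₀ hε).1 hK
      have a3 : (S.card : ℝ) ≤ d := by nlinarith
      rcases le_total (L : ℝ) 1 with a4 | a4
      · nlinarith [mul_nonneg m00 E0.le]
      · have a5 : 4 * E * (L - 1) ≤ K * ε * (L - 1) :=
          mul_le_mul_of_nonneg_right a2.le (by linarith)
        have a6 : ε * (K * (L - 1)) ≤ ε * d := mul_le_mul_of_nonneg_left (by linarith) hε.le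
        nlinarith [mul_nonneg m00 E0.le]
  have t1 : 4 / (9 * ε) ≤ Real.log (D / (2 * (2 * L + 8 : ℕ))) := by
    rw [Real.le_log_iff_exp_le (by positivity), le_div_iff₀ (by positivity), ← hE]
    linarith
  have t2 : D * (4 / (9 * ε)) ≤ 2 * S.card := (mul_le_mul_of_nonneg_left t1 D0.le).trans key
  have t3 : 3 * ε * d * (4 / (9 * ε)) < D * (4 / (9 * ε)) :=
    mul_lt_mul_of_pos_right D1 (by positivity)
  have t4 : 3 * ε * d * (4 / (9 * ε)) = 4 / 3 * d := by field_simp; ring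
  nlinarith

end Pool.Agent.Results.MP_5f22fc_co.TwoThirds
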